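import Pool.Agent.W37.SG.Stm

/-! Project SG, part D3: `U (p^k)` is the space of functions of the first `k` coordinates. -/

set_option autoImplicit false

namespace Pool.Agent.W585.SG.D3

open Pool.Agent.W37.SG

theorem U_mono (p : ℕ) {m n : ℕ} (h : m ≤ n) : U p m ≤ U p n := by
  apply Submodule.span_mono
  rintro f ⟨i, hi, rfl⟩
  exact ⟨i, hi.trans_le h, rfl⟩

theorem mon_eq {p : ℕ} (hp : 1 < p) (n N : ℕ) (h : n < p ^ N) (x : ℕ → ZMod p) :
    mon p n x = ∏ j ∈ Finset.range N, x j ^ (n / p ^ j % p) := by
  unfold mon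
  have h1 : ∏ j ∈ Finset.range n, x j ^ (n / p ^ j % p) =
      ∏ j ∈ Finset.range (max n N), x j ^ (n / p ^ j % p) := by
    apply Finset.prod_subset (Finset.range_mono (le_max_left _ _))
    intro j _ hj
    rw [Finset.mem_range, not_lt] at hj
    have : n < p ^ j := hj.trans_lt (Nat.lt_pow_self hp)
    rw [Nat.div_eq_of_lt this, Nat.zero_mod, pow_zero]
  have h2 : ∏ j ∈ Finset.range N, x j ^ (n / p ^ j % p) =
      ∏ j ∈ Finset.range (max n N), x j ^ (n / p ^ j % p) := by
    apply Finset.prod_subset (Finset.range_mono (le_max_right _ _))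
    intro j _ hj
    rw [Finset.mem_range, not_lt] at hj
    have : n < p ^ j := h.trans_le (Nat.pow_le_pow_right (by omega) hj)
    rw [Nat.div_eq_of_lt this, Nat.zero_mod, pow_zero]
  rw [h1, h2]

theorem mon_mul {p : ℕ} (hp : 1 < p) (k e r : ℕ) (he : e < p) (hr : r < p ^ k) (x : ℕ → ZMod p) :
    x k ^ e * mon p r x = mon p (e * p ^ k + r) x := by
  have hlt : e * p ^ k + r < p ^ (k + 1) := by
    have h1 : (e + 1) * p ^ k ≤ p * p ^ k := Nat.mul_le_mul_right _ he
    rw [pow_succ']
    nlinarith
  rw [mon_eq hp _ (k + 1) hlt, mon_eq hp r k hr, Finset.prod_range_succ, mul_comm]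
  have h0 : 0 < p ^ k := Nat.pow_pos (by omega)
  congr 1
  · apply Finset.prod_congr rfl
    intro j hj
    rw [Finset.mem_range] at hj
    congr 1
    obtain ⟨d, rfl⟩ : ∃ d, k = j + (d + 1) := ⟨k - j - 1, by omega⟩
    have e1 : e * p ^ (j + (d + 1)) + r = p ^ j * (p * (e * p ^ d)) + r := by
      rw [pow_add, pow_succ]
      ring
    rw [e1, Nat.mul_add_div (Nat.pow_pos (by omega)), Nat.mul_add_mod]
  · congr 1
    have e2 : e * p ^ k + r = p ^ k * e + r := by ring
    rw [e2, Nat.mul_add_div h0, Nat.div_eq_of_lt hr, add_zero, Nat.mod_eq_of_lt he]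

theorem mulk {p : ℕ} (hp : 1 < p) (k e : ℕ) (he : e < p) (f : Fn p) (hf : f ∈ U p (p ^ k)) :
    (fun x => x k ^ e * f x) ∈ U p (p ^ (k + 1)) := by
  unfold U at hf
  induction hf using Submodule.span_induction with
  | mem f hf =>
    obtain ⟨r, hr, rfl⟩ := hf
    apply Submodule.subset_span
    refine ⟨e * p ^ k + r, ?_, ?_⟩
    · have h1 : (e + 1) * p ^ k ≤ p * p ^ k := Nat.mul_le_mul_right _ he
      rw [pow_succ']
      nlinarith
    · funext x
      exact mon_mul hp k e r he hr x
  | zero =>
    have : (fun x : ℕ → ZMod p => x k ^ e * (0 : Fn p) x) = 0 := by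
      funext x
      simp
    rw [this]
    exact Submodule.zero_mem _
  | add f g _ _ hf hg =>
    have : (fun x : ℕ → ZMod p => x k ^ e * (f + g) x) =
        (fun x => x k ^ e * f x) + fun x => x k ^ e * g x := by
      funext x
      simp [mul_add]
    rw [this]
    exact Submodule.add_mem _ hf hg
  | smul c f _ hf =>
    have : (fun x : ℕ → ZMod p => x k ^ e * (c • f) x) = c • fun x => x k ^ e * f x := by
      funext x
      simp [mul_left_comm]
    rw [this]
    exact Submodule.smul_mem _ _ hf

theorem dep_of_mem {p : ℕ} (hp : 1 < p) (k : ℕ) (f : Fn p) (hf : f ∈ U p (p ^ k))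
    (x y : ℕ → ZMod p) (hxy : ∀ j < k, x j = y j) : f x = f y := by
  unfold U at hf
  induction hf using Submodule.span_induction with
  | mem f hf =>
    obtain ⟨r, hr, rfl⟩ := hf
    rw [mon_eq hp r k hr, mon_eq hp r k hr]
    apply Finset.prod_congr rfl
    intro j hj
    rw [hxy j (Finset.mem_range.mp hj)]
  | zero => rfl
  | add f g _ _ hf hg =>
    show f x + g x = f y + g y
    rw [hf, hg]
  | smul c f _ hf =>
    show c • f x = c • f y
    rw [hf]

theorem mem_of_dep {p : ℕ} [Fact p.Prime] (k : ℕ) : ∀ f : Fn p,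
    (∀ x y : ℕ → ZMod p, (∀ j < k, x j = y j) → f x = f y) → f ∈ U p (p ^ k) := by
  have hp : 1 < p := (Fact.out : p.Prime).one_lt
  induction k with
  | zero =>
    intro f hf
    have h1 : f = (f 0) • mon p 0 := by
      funext x
      show f x = f 0 • mon p 0 x
      rw [hf x 0 (by simp)]
      simp [mon]
    rw [h1]
    exact Submodule.smul_mem _ _ (Submodule.subset_span ⟨0, by simp, rfl⟩)
  | succ k ih =>
    intro f hf
    have hc : ∀ c : ZMod p, (fun x => f (Function.update x k c)) ∈ U p (p ^ k) := by
      intro c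
      apply ih
      intro x y hxy
      apply hf
      intro j hj
      by_cases hjk : j = k
      · subst hjk
        simp
      · rw [Function.update_of_ne hjk, Function.update_of_ne hjk]
        exact hxy j (by omega)
    have hsum : f = ∑ c : ZMod p, ((fun x => f (Function.update x k c)) -
        ∑ m ∈ Finset.range (p - 1 + 1), ((-c) ^ (p - 1 - m) * ((p - 1).choose m : ZMod p)) •
          fun x : ℕ → ZMod p => x k ^ m * f (Function.update x k c)) := by
      funext x
      have h1 : ∀ c : ZMod p, ((fun x => f (Function.update x k c)) -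
        ∑ m ∈ Finset.range (p - 1 + 1), ((-c) ^ (p - 1 - m) * ((p - 1).choose m : ZMod p)) •
          fun x : ℕ → ZMod p => x k ^ m * f (Function.update x k c)) x =
          (1 - (x k + -c) ^ (p - 1)) * f (Function.update x k c) := by
        intro c
        rw [Pi.sub_apply, Finset.sum_apply, add_pow, sub_mul, one_mul, Finset.sum_mul]
        congr 1
        apply Finset.sum_congr rfl
        intro m _
        show ((-c) ^ (p - 1 - m) * ((p - 1).choose m : ZMod p)) •
          (x k ^ m * f (Function.update x k c)) = _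
        rw [smul_eq_mul]
        ring
      rw [Finset.sum_apply]
      simp only [h1]
      rw [Finset.sum_eq_single (x k)]
      · rw [add_neg_cancel, zero_pow (by omega), sub_zero, one_mul, Function.update_eq_self]
      · intro c _ hcx
        have h2 : x k + -c ≠ 0 := by
          intro h
          apply hcx
          have := add_neg_eq_zero.mp h
          exact this.symm
        rw [ZMod.pow_card_sub_one_eq_one h2, sub_self, zero_mul]
      · intro h
        exact absurd (Finset.mem_univ _) h
    rw [hsum]
    apply Submodule.sum_mem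
    intro c _
    apply Submodule.sub_mem
    · exact U_mono p (Nat.pow_le_pow_right (by omega) (Nat.le_succ k)) (hc c)
    · apply Submodule.sum_mem
      intro m hm
      apply Submodule.smul_mem
      exact mulk hp k m (by have := Finset.mem_range.mp hm; omega) _ (hc c)

theorem main : S_D3 := by
  intro p _ k f
  exact ⟨fun hf x y hxy => dep_of_mem (Fact.out : p.Prime).one_lt k f hf x y hxy,
    fun h => mem_of_dep k f h⟩

end Pool.Agent.W585.SG.D3
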