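import Pool.Agent.W37.SG.Stm2

/-! Project SG: displacement functions. -/

set_option autoImplicit false

namespace Pool.Agent.W585.SG.Disp

open Pool.Agent.W37.SG

theorem agr_tri {p k : ℕ} {g : Pm p} (hg : IsTri p g) {x y : ℕ → ZMod p} (h : Agr p k x y) :
    Agr p k (g x) (g y) := by
  intro l hl
  have h1 := hg l x y (fun j hj => h j (hj.trans hl))
  rw [h l hl] at h1
  exact sub_left_injective h1

theorem agr_mono {p k l : ℕ} (hkl : k ≤ l) {x y : ℕ → ZMod p} (h : Agr p l x y) :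
    Agr p k x y := fun j hj => h j (hj.trans_le hkl)

theorem agr_ker {p k : ℕ} {g : Pm p} (hg : IsKer p k g) (x : ℕ → ZMod p) : Agr p k (g x) x :=
  fun j hj => hg x j hj

theorem agr_symm {p k : ℕ} {x y : ℕ → ZMod p} (h : Agr p k x y) : Agr p k y x :=
  fun j hj => (h j hj).symm

theorem agr_trans {p k : ℕ} {x y z : ℕ → ZMod p} (h : Agr p k x y) (h' : Agr p k y z) :
    Agr p k x z := fun j hj => (h j hj).trans (h' j hj)

theorem ker_pow {p k : ℕ} {g : Pm p} (hg : IsKer p k g) (n : ℕ) : IsKer p k (g ^ n) := by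
  induction n with
  | zero =>
    intro x i _
    rfl
  | succ n ih =>
    intro x i hi
    rw [pow_succ', Equiv.Perm.mul_apply, hg _ i hi, ih x i hi]

theorem phi_pow {p : ℕ} [Fact p.Prime] {X : Pm p} {Φ : Zf p} (h : ∀ x, Φ (X x) = Φ x + 1) (n : ℕ)
    (x : ℕ → ZMod p) : Φ ((X ^ n) x) = Φ x + n := by
  induction n with
  | zero => simp
  | succ n ih =>
    rw [pow_succ', Equiv.Perm.mul_apply, h, ih]
    push_cast
    ring

theorem main : S_DISP := by
  intro _ p _ s Q X J α Φ hB i j hi hj u hu hku x y hxy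
  have hsJ := hB.A.sJ
  obtain ⟨m, hm⟩ : ∃ m, m = i + j - J - s := ⟨_, rfl⟩
  have hsm : s + m = i + j - J := by omega
  rw [← hm]
  have h1 : (p : ℤ_[p]) ^ (i - s) ∣ Φ y - Φ x := by
    have h2 := (hB.chart.base (i - s) y x (agr_mono (by omega) (agr_symm hxy))).mp
      (by rw [show s + (i - s) = i by omega]; exact agr_symm hxy)
    exact h2
  obtain ⟨z, hz⟩ := h1
  obtain ⟨t, ht⟩ : ∃ t : ℕ, (p : ℤ_[p]) ^ (j - J) ∣ z - t :=
    ⟨z.appr (j - J), Ideal.mem_span_singleton.mp (PadicInt.appr_spec (j - J) z)⟩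
  obtain ⟨Y, hY⟩ : ∃ Y : Pm p, Y = (X ^ p ^ (i - s)) ^ t := ⟨_, rfl⟩
  have hYQ : Y ∈ Q := by
    rw [hY]
    exact Q.pow_mem (Q.pow_mem hB.XQ _) _
  have hYk : IsKer p i Y := by
    rw [hY]
    exact ker_pow (hB.xp i (by omega)).1 t
  have hΦY : ∀ w, Φ (Y w) = Φ w + t * (p : ℤ_[p]) ^ (i - s) := by
    intro w
    rw [hY, ← pow_mul, phi_pow hB.chart.shift]
    push_cast
    ring
  have hpm : (p : ℤ_[p]) ^ m = (p : ℤ_[p]) ^ (i - s) * (p : ℤ_[p]) ^ (j - J) := by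
    rw [← pow_add]
    congr 1
    omega
  have e1 : (p : ℤ_[p]) ^ m ∣ Φ y - Φ (Y x) := by
    have h2 : Φ y - Φ (Y x) = (p : ℤ_[p]) ^ (i - s) * (z - t) := by
      rw [hΦY, mul_sub, ← hz]
      ring
    rw [h2, hpm]
    exact mul_dvd_mul_left _ ht
  have a0 : Agr p s y (Y x) :=
    agr_mono (by omega) (agr_trans (agr_symm hxy) (agr_symm (agr_ker hYk x)))
  have a1 : Agr p (s + m) y (Y x) := (hB.chart.base m y (Y x) a0).mpr e1
  have hut := hB.tri u hu
  have hYt := hB.tri Y hYQ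
  have a2 : Agr p (s + m) (u y) (u (Y x)) := agr_tri hut a1
  have e2 : (p : ℤ_[p]) ^ m ∣ Φ (u y) - Φ (u (Y x)) :=
    (hB.chart.base m _ _ (agr_mono (by omega) a2)).mp a2
  have hc : IsKer p (s + m) (cm u Y) := by
    have h3 := hB.A.comm j i hj hi u hu Y hYQ hku hYk
    rwa [show j + i - J = s + m by omega] at h3
  have hcomm : u (Y x) = Y (u ((cm u Y) x)) := by
    have h4 : u * Y = Y * u * cm u Y := by
      unfold cm
      group
    have h5 := congrArg (fun g : Pm p => g x) h4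
    simp only [Equiv.Perm.mul_apply] at h5
    exact h5
  have a3 : Agr p (s + m) (u (Y x)) (Y (u x)) := by
    rw [hcomm]
    exact agr_tri hYt (agr_tri hut (agr_ker hc x))
  have e3 : (p : ℤ_[p]) ^ m ∣ Φ (u (Y x)) - Φ (Y (u x)) :=
    (hB.chart.base m _ _ (agr_mono (by omega) a3)).mp a3
  rw [hΦY] at e3
  have h6 := dvd_sub e1 (dvd_add e2 e3)
  have h7 : (Φ (u x) - Φ x) - (Φ (u y) - Φ y) = Φ y - Φ (Y x) - (Φ (u y) - Φ (u (Y x)) +
      (Φ (u (Y x)) - (Φ (u x) + t * (p : ℤ_[p]) ^ (i - s)))) := by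
    rw [hΦY x]
    ring
  rw [h7]
  exact h6

end Pool.Agent.W585.SG.Disp
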